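import Pool.Agent.helper62.DP8.Spec

set_option autoImplicit false

namespace Pool.Agent.helper62.DP8

/-- A mask different from `0` has an element. -/
theorem CRT_ex (hBIT : BIT_stmt) (m : ℕ) (hm : m ≠ 0) : ∃ i, tb m i = true := by
  by_contra hcon
  push Not at hcon
  apply hm
  apply Nat.zero_of_testBit_eq_false
  intro i
  have h1 := hcon i
  rw [hBIT.1 m i] at h1
  simpa using h1

/-- Elements of a mask with `m >>> n = 0` are less than `n`. -/
theorem CRT_lt (hBIT : BIT_stmt) (m n : ℕ) (hm : Nat.shiftRight m n = 0) (i : ℕ) (hi : tb m i = true) : i < n := by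
  by_contra hcon
  push Not at hcon
  have h1 : (m >>> n).testBit (i - n) = m.testBit i := by
    rw [Nat.testBit_shiftRight]
    congr 1
    omega
  have h2 : m >>> n = 0 := hm
  rw [h2] at h1
  rw [hBIT.1 m i] at hi
  rw [hi] at h1
  simp at h1

theorem CRT (hBIT : BIT_stmt) (hORS : ORS_stmt) (hTAB : TAB_stmt) (hTRR : TRR_stmt) (hSKK : SKK_stmt)
    (hSMM : SMM_stmt) (hUBD : UBD_stmt) (hRUN : RUN_stmt) (hEXT : EXT_stmt) (hDG9 : DG9_stmt) (hGOA : GOA_stmt) : CRT_stmt := by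
  intro V _ G g s v hg hconn hcub hgir hreal S ms hok
  classical
  unfold okCert at hok
  rw [hBIT.2.2.2.2.2.2] at hok
  simp only [Bool.and_eq_true, Bool.not_eq_true'] at hok
  obtain ⟨⟨⟨h1, h2⟩, h3⟩, h4⟩ := hok
  have hS0 : S ≠ 0 := by
    intro h
    rw [h] at h1
    simp at h1
  have hSn : Nat.shiftRight S s.n = 0 := Nat.eq_of_beq_eq_true h2
  have hlt : ∀ i, tb S i = true → i < s.n := fun i hi => CRT_lt hBIT S s.n hSn i hi
  have h5 := (hORS.2.2.2.1 S _ s.n).1 h3
  set s0 : ℕ := tab (fun x => 9 - (cnt (ent (tbl g s).K x) s.n + 3 * (3 - ent (tbl g s).D x) +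
    (3 * ent (tbl g s).D x - sumS (ent (tbl g s).R x) (tbl g s).D s.n))) s.n with hs0
  have hnb : ∀ x, tb S x = true → ∃ y, tb S y = true ∧ tb (ent (tbl g s).R x) y = true := by
    intro x hx
    have h6 := h5 x (hlt x hx) hx
    have h7 : Nat.land (ent (tbl g s).R x) S ≠ 0 := by
      intro h
      rw [h] at h6
      simp at h6
    obtain ⟨y, hy⟩ := CRT_ex hBIT _ h7
    rw [hBIT.2.2.1] at hy
    simp only [Bool.and_eq_true] at hy
    exact ⟨y, hy.2, hy.1⟩
  -- the slack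
  let σ : V → ℕ := fun w => if h : ∃ x, tb S x = true ∧ v x = w then ent s0 h.choose else 0
  have hσ : ∀ x, tb S x = true → σ (v x) = ent s0 x := by
    intro x hx
    have hex : ∃ y, tb S y = true ∧ v y = v x := ⟨x, hx, rfl⟩
    have h6 : σ (v x) = ent s0 hex.choose := by
      simp only [σ]
      rw [dif_pos hex]
    have h7 := hex.choose_spec
    have h8 : hex.choose = x := hreal.inj _ (hlt _ h7.1) _ (hlt _ hx) h7.2
    rw [h6, h8]
  have hpc : Pc (sq G) (img s.n v S) σ := by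
    refine hRUN V (sq G) s.n (tbl g s).K (tbl g s).M v hreal.inj ?_ ?_ ms S (fun x => ent s0 x) σ hlt ?_ h4
    · intro x _ y _ h
      obtain ⟨_, _, h6, h7⟩ := hSKK V G g s v hreal x y h
      exact ⟨h6, h7⟩
    · intro x hx y hy h
      exact hSMM V G g s v hg hcub hgir hreal x y hx hy h
    · intro x hx hxS
      exact le_of_eq (hσ x hxS).symm
  have hmem : ∀ w, w ∈ img s.n v S ↔ ∃ x, tb S x = true ∧ v x = w := by
    intro w
    unfold img
    simp only [Finset.mem_image, Finset.mem_filter, Finset.mem_range]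
    constructor
    · rintro ⟨x, ⟨_, h6⟩, h7⟩
      exact ⟨x, h6, h7⟩
    · rintro ⟨x, h6, h7⟩
      exact ⟨x, ⟨hlt x h6, h6⟩, h7⟩
  have hne : (img s.n v S).Nonempty := by
    obtain ⟨i, hi⟩ := CRT_ex hBIT S hS0
    exact ⟨v i, (hmem _).2 ⟨i, hi, rfl⟩⟩
  have hadj : ∀ x ∈ img s.n v S, ∃ y ∈ img s.n v S, G.Adj x y := by
    intro x hx
    obtain ⟨a, ha, rfl⟩ := (hmem x).1 hx
    obtain ⟨b, hb, hab⟩ := hnb a ha
    obtain ⟨_, _, _, h6, _⟩ := (hTRR V G g s v hreal).2 a b hab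
    exact ⟨v b, (hmem _).2 ⟨b, hb, rfl⟩, h6⟩
  have hall := hEXT V G hconn (img s.n v S) hne hadj σ hpc
  have hsub : Sub3 G := fun x => le_of_eq (hcub x)
  refine hGOA V G σ ?_ hall
  intro x
  have h9 := hDG9 V G hsub x
  by_cases hx : ∃ a, tb S a = true ∧ v a = x
  · obtain ⟨a, ha, rfl⟩ := hx
    rw [hσ a ha]
    have hub := hUBD V G g s v hcub hreal a (hlt a ha)
    have hent : ent s0 a ≤ 9 - (cnt (ent (tbl g s).K a) s.n + 3 * (3 - ent (tbl g s).D a) +
        (3 * ent (tbl g s).D a - sumS (ent (tbl g s).R a) (tbl g s).D s.n)) := by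
      rw [hs0, hTAB.2.1, if_pos (hlt a ha)]
      exact Nat.mod_le _ _
    omega
  · have h6 : σ x = 0 := by
      simp only [σ]
      rw [dif_neg hx]
    rw [h6]
    omega

end Pool.Agent.helper62.DP8
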